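import Mathlib

set_option autoImplicit false

namespace Pool.Agent.Results.MP_6883a6_al.Counter

open MulOpposite

/-- a right submodule `M` of `R^d` has rank `r`: it has a basis with `r` elements -/
def HasRank {R : Type} [Ring R] {d : ℕ} (M : Submodule Rᵐᵒᵖ (Fin d → R)) (r : ℕ) : Prop :=
  Nonempty (Module.Basis (Fin r) Rᵐᵒᵖ M)

/-- `M` lies in no proper direct summand of the free right module `R^d` -/
def Algebraic {R : Type} [Ring R] {d : ℕ} (M : Submodule Rᵐᵒᵖ (Fin d → R)) : Prop :=
  ∀ P Q : Submodule Rᵐᵒᵖ (Fin d → R), IsCompl P Q → M ≤ P → P = ⊤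

/-- `M ∩ K[H]^d` as a right `K[H]`-submodule of `K[H]^d` -/
def inter {K F : Type} [Field K] [Group F] {d : ℕ} (H : Subgroup F)
    (M : Submodule (MonoidAlgebra K F)ᵐᵒᵖ (Fin d → MonoidAlgebra K F)) :
    Submodule (MonoidAlgebra K H)ᵐᵒᵖ (Fin d → MonoidAlgebra K H) where
  carrier := {v | (fun i => MonoidAlgebra.mapDomainRingHom K H.subtype (v i)) ∈ M}
  zero_mem' := by
    show (fun i => _) ∈ M
    simp only [Pi.zero_apply, map_zero]
    exact M.zero_mem
  add_mem' := by
    intro a b ha hb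
    show (fun i => _) ∈ M
    simp only [Pi.add_apply, map_add]
    exact M.add_mem ha hb
  smul_mem' := by
    intro c v hv
    show (fun i => _) ∈ M
    simp only [Pi.smul_apply, MulOpposite.smul_eq_mul_unop, map_mul]
    exact M.smul_mem (op (MonoidAlgebra.mapDomainRingHom K H.subtype c.unop)) hv

section Fox
variable {K G : Type} [Field K] [Group G]

noncomputable def e (K : Type) [Field K] (g : G) : MonoidAlgebra K G := MonoidAlgebra.single g 1

lemma e_mul (g h : G) : e K (g * h) = e K g * e K h := by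
  simp [e, MonoidAlgebra.single_mul_single]

@[simp] lemma e_one : e K (1 : G) = 1 := rfl

@[ext] structure Aff (K G : Type) [Field K] [Group G] where
  g : G
  l : MonoidAlgebra K G
  r : MonoidAlgebra K G

noncomputable instance : Mul (Aff K G) :=
  ⟨fun a b => ⟨a.g * b.g, a.l + e K a.g * b.l, a.r * e K b.g + b.r⟩⟩
noncomputable instance : One (Aff K G) := ⟨⟨1, 0, 0⟩⟩
noncomputable instance : Inv (Aff K G) :=
  ⟨fun a => ⟨a.g⁻¹, -(e K a.g⁻¹ * a.l), -(a.r * e K a.g⁻¹)⟩⟩

@[simp] lemma mul_g (a b : Aff K G) : (a * b).g = a.g * b.g := rfl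
@[simp] lemma mul_l (a b : Aff K G) : (a * b).l = a.l + e K a.g * b.l := rfl
@[simp] lemma mul_r (a b : Aff K G) : (a * b).r = a.r * e K b.g + b.r := rfl
@[simp] lemma one_g : (1 : Aff K G).g = 1 := rfl
@[simp] lemma one_l : (1 : Aff K G).l = 0 := rfl
@[simp] lemma one_r : (1 : Aff K G).r = 0 := rfl
@[simp] lemma inv_g (a : Aff K G) : (a⁻¹).g = a.g⁻¹ := rfl
@[simp] lemma inv_l (a : Aff K G) : (a⁻¹).l = -(e K a.g⁻¹ * a.l) := rfl
@[simp] lemma inv_r (a : Aff K G) : (a⁻¹).r = -(a.r * e K a.g⁻¹) := rfl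

noncomputable instance : Group (Aff K G) := Group.ofLeftAxioms
  (fun a b c => by
    refine Aff.ext ?_ ?_ ?_
    · simp [mul_assoc]
    · simp [e_mul, mul_add, mul_assoc, add_assoc]
    · simp [e_mul, add_mul, mul_assoc, add_assoc])
  (fun a => by refine Aff.ext ?_ ?_ ?_ <;> simp)
  (fun a => by
    refine Aff.ext ?_ ?_ ?_
    · simp
    · simp
    · simp [mul_assoc, ← e_mul])

noncomputable def proj : Aff K G →* G := MonoidHom.mk' Aff.g fun _ _ => rfl

lemma fox {ι : Type} [DecidableEq ι] (b : FreeGroupBasis ι G) (j : ι) :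
    ∃ D D' : MonoidAlgebra K G →+ MonoidAlgebra K G,
      (∀ i r, D (r * (e K (b i) - 1)) = if i = j then r else 0) ∧
      (∀ i r, D' ((e K (b i) - 1) * r) = if i = j then r else 0) := by
  let ψ : G →* Aff K G := b.lift fun i => ⟨b i, if i = j then 1 else 0, if i = j then 1 else 0⟩
  have hψ : ∀ i, ψ (b i) = ⟨b i, if i = j then 1 else 0, if i = j then 1 else 0⟩ := by
    intro i; simp [ψ, FreeGroupBasis.lift]
  have hg : ∀ g, (ψ g).g = g := by
    have : proj.comp ψ = MonoidHom.id G := b.ext_hom _ _ fun i => by simp [hψ, proj]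
    intro g; exact DFunLike.congr_fun this g
  let mk : (G → MonoidAlgebra K G) → MonoidAlgebra K G →+ MonoidAlgebra K G := fun d =>
    { toFun := fun r => Finsupp.linearCombination K d r.coeff
      map_zero' := by simp
      map_add' := by intro a b; simp }
  have hmk : ∀ d g c, mk d (MonoidAlgebra.single g c) = c • d g := by
    intro d g c; simp [mk]
  refine ⟨mk fun g => (ψ g).l, mk fun g => (ψ g).r, ?_, ?_⟩
  · intro i r
    induction r using MonoidAlgebra.induction_linear with
    | zero => simp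
    | add x y hx hy => rw [add_mul, map_add, hx, hy]; split_ifs <;> simp
    | single g c =>
      rw [mul_sub, mul_one, map_sub, e, MonoidAlgebra.single_mul_single, hmk, hmk, map_mul, mul_l,
        hg, hψ]
      split_ifs <;> simp [e]
  · intro i r
    induction r using MonoidAlgebra.induction_linear with
    | zero => simp
    | add x y hx hy => rw [mul_add, map_add, hx, hy]; split_ifs <;> simp
    | single g c =>
      rw [sub_mul, one_mul, map_sub, e, MonoidAlgebra.single_mul_single, hmk, hmk, map_mul, mul_r,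
        hg, hψ]
      split_ifs <;> simp [e]

lemma indep_left {ι : Type} [Fintype ι] [DecidableEq ι] (b : FreeGroupBasis ι G)
    (c : ι → MonoidAlgebra K G) (h : ∑ i, c i * (e K (b i) - 1) = 0) (j : ι) : c j = 0 := by
  obtain ⟨D, -, hD, -⟩ := fox (K := K) b j
  have := congrArg D h
  simpa [map_sum, hD] using this

lemma indep_right {ι : Type} [Fintype ι] [DecidableEq ι] (b : FreeGroupBasis ι G)
    (c : ι → MonoidAlgebra K G) (h : ∑ i, (e K (b i) - 1) * c i = 0) (j : ι) : c j = 0 := by
  obtain ⟨-, D, -, hD⟩ := fox (K := K) b j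
  have := congrArg D h
  simpa [map_sum, hD] using this

lemma nzd_left {ι : Type} [DecidableEq ι] (b : FreeGroupBasis ι G) (j : ι)
    (c : MonoidAlgebra K G) (h : c * (e K (b j) - 1) = 0) : c = 0 := by
  obtain ⟨D, -, hD, -⟩ := fox (K := K) b j
  have := congrArg D h
  simpa [hD] using this

lemma nzd_right {ι : Type} [DecidableEq ι] (b : FreeGroupBasis ι G) (j : ι)
    (c : MonoidAlgebra K G) (h : (e K (b j) - 1) * c = 0) : c = 0 := by
  obtain ⟨-, D, -, hD⟩ := fox (K := K) b j
  have := congrArg D h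
  simpa [hD] using this

noncomputable def eps (K G : Type) [Field K] [Group G] : MonoidAlgebra K G →ₐ[K] K :=
  MonoidAlgebra.lift K K G 1

@[simp] lemma eps_single (g : G) (c : K) : eps K G (MonoidAlgebra.single g c) = c := by
  simp [eps]

@[simp] lemma eps_e (g : G) : eps K G (e K g) = 1 := eps_single _ _

lemma span_aug {ι : Type} [Fintype ι] [DecidableEq ι] (b : FreeGroupBasis ι G)
    (r : MonoidAlgebra K G) (hr : eps K G r = 0) :
    ∃ c : ι → MonoidAlgebra K G, r = ∑ i, (e K (b i) - 1) * c i := by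
  have h1 : ∀ g : G, ∃ c : ι → MonoidAlgebra K G, e K g - 1 = ∑ i, (e K (b i) - 1) * c i := by
    intro g
    obtain ⟨w, rfl⟩ := b.repr.symm.surjective g
    induction w using FreeGroup.induction_on with
    | C1 => exact ⟨0, by simp⟩
    | of x =>
      refine ⟨fun i => if i = x then 1 else 0, ?_⟩
      simp only [mul_ite, mul_one, mul_zero, Finset.sum_ite_eq', Finset.mem_univ, if_true]
      rfl
    | inv_of x hx =>
      obtain ⟨c, hc⟩ := hx
      refine ⟨fun i => -(c i * e K (b.repr.symm (FreeGroup.of x))⁻¹), ?_⟩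
      simp only [mul_neg, ← mul_assoc, Finset.sum_neg_distrib, ← Finset.sum_mul, ← hc, map_inv]
      rw [sub_mul, ← e_mul]
      simp
    | mul x y hx hy =>
      obtain ⟨c, hc⟩ := hx
      obtain ⟨c', hc'⟩ := hy
      refine ⟨fun i => c i * e K (b.repr.symm y) + c' i, ?_⟩
      simp only [mul_add, ← mul_assoc, Finset.sum_add_distrib, ← Finset.sum_mul, ← hc, ← hc',
        map_mul, e_mul]
      noncomm_ring
  have h2 : ∀ r : MonoidAlgebra K G, ∃ c : ι → MonoidAlgebra K G,
      r - eps K G r • (1 : MonoidAlgebra K G) = ∑ i, (e K (b i) - 1) * c i := by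
    intro r
    induction r using MonoidAlgebra.induction_linear with
    | zero => exact ⟨0, by simp⟩
    | add x y hx hy =>
      obtain ⟨c, hc⟩ := hx
      obtain ⟨c', hc'⟩ := hy
      refine ⟨fun i => c i + c' i, ?_⟩
      simp only [mul_add, Finset.sum_add_distrib, ← hc, ← hc', map_add, add_smul]
      abel
    | single g a =>
      obtain ⟨c, hc⟩ := h1 g
      refine ⟨fun i => a • c i, ?_⟩
      simp only [mul_smul_comm, ← Finset.smul_sum, ← hc, eps_single, smul_sub]
      simp [e]
  simpa [hr] using h2 r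

/-- the module -/
def MM (K : Type) [Field K] (k : ℕ) (u v : G) :
    Submodule (MonoidAlgebra K G)ᵐᵒᵖ (Fin (k + 2) → MonoidAlgebra K G) where
  carrier := {x | (∃ r, x 0 = (e K u - 1) * r ∧ x 1 = (e K v - 1) * r) ∧
    ∀ i : Fin k, eps K G (x i.succ.succ) = 0}
  zero_mem' := ⟨⟨0, by simp⟩, by simp⟩
  add_mem' := by
    rintro a b ⟨⟨r, h1, h2⟩, h3⟩ ⟨⟨s, h4, h5⟩, h6⟩
    exact ⟨⟨r + s, by simp [h1, h4, mul_add], by simp [h2, h5, mul_add]⟩, fun i => by simp [h3, h6]⟩
  smul_mem' := by
    rintro c a ⟨⟨r, h1, h2⟩, h3⟩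
    refine ⟨⟨r * c.unop, ?_, ?_⟩, fun i => ?_⟩
    · simp [h1, mul_assoc]
    · simp [h2, mul_assoc]
    · simp [h3]

noncomputable def Phi {s : ℕ} (b : FreeGroupBasis (Fin s) G) (k : ℕ) (u v : G) :
    (Option (Fin k × Fin s) → (MonoidAlgebra K G)ᵐᵒᵖ) →ₗ[(MonoidAlgebra K G)ᵐᵒᵖ]
      (Fin (k + 2) → MonoidAlgebra K G) where
  toFun c := Fin.cons ((e K u - 1) * (c none).unop) (Fin.cons ((e K v - 1) * (c none).unop)
    fun i => ∑ j, (e K (b j) - 1) * (c (some (i, j))).unop)
  map_add' c c' := by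
    funext i
    refine Fin.cases ?_ (fun i => Fin.cases ?_ (fun i => ?_) i) i <;>
      simp [mul_add, Finset.sum_add_distrib]
  map_smul' a c := by
    funext i
    refine Fin.cases ?_ (fun i => Fin.cases ?_ (fun i => ?_) i) i <;>
      simp [mul_assoc, Finset.sum_mul]

lemma rank_MM {s : ℕ} (b : FreeGroupBasis (Fin s) G) (k : ℕ) (j : Fin s) (v : G) :
    HasRank (MM K k (b j) v) (s * k + 1) := by
  have hinj : Function.Injective (Phi (K := K) b k (b j) v) := by
    rw [← LinearMap.ker_eq_bot, LinearMap.ker_eq_bot']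
    intro c hc
    funext x
    rcases x with _ | ⟨i, j'⟩
    · have := congrFun hc 0
      simpa using nzd_right b j _ this
    · have := congrFun hc i.succ.succ
      simpa using indep_right b (fun j => (c (some (i, j))).unop) this j'
  have hr : LinearMap.range (Phi (K := K) b k (b j) v) = MM K k (b j) v := by
    ext x
    constructor
    · rintro ⟨c, rfl⟩
      refine ⟨⟨(c none).unop, rfl, rfl⟩, fun i => ?_⟩
      simp [Phi]
    · rintro ⟨⟨r, h1, h2⟩, h3⟩
      choose c hc using fun i => span_aug b _ (h3 i)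
      refine ⟨fun y => y.elim (op r) fun p => op (c p.1 p.2), ?_⟩
      funext i
      refine Fin.cases ?_ (fun i => Fin.cases ?_ (fun i => ?_) i) i
      · simpa [Phi] using h1.symm
      · simpa [Phi] using h2.symm
      · simpa [Phi] using (hc i).symm
  refine ⟨(Module.Basis.ofEquivFun ((LinearEquiv.ofInjective _ hinj).trans
    (LinearEquiv.ofEq _ _ hr)).symm).reindex (Fintype.equivFinOfCardEq ?_)⟩
  simp [mul_comm]

end Fox

abbrev F2 := FreeGroup (Fin 2)
abbrev F3 := FreeGroup (Fin 3)

def ga : F2 := FreeGroup.of 0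
def gb : F2 := FreeGroup.of 1

def io : F3 →* F2 := FreeGroup.lift ![gb, ga * gb * ga⁻¹, ga * ga]

def pA : Equiv.Perm (F3 × Bool) where
  toFun p := if p.2 then (p.1, false) else (FreeGroup.of 2 * p.1, true)
  invFun p := if p.2 then ((FreeGroup.of 2)⁻¹ * p.1, false) else (p.1, true)
  left_inv := by rintro ⟨g, _ | _⟩ <;> simp
  right_inv := by rintro ⟨g, _ | _⟩ <;> simp

def pB : Equiv.Perm (F3 × Bool) where
  toFun p := if p.2 then (FreeGroup.of 1 * p.1, true) else (FreeGroup.of 0 * p.1, false)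
  invFun p := if p.2 then ((FreeGroup.of 1)⁻¹ * p.1, true) else ((FreeGroup.of 0)⁻¹ * p.1, false)
  left_inv := by rintro ⟨g, _ | _⟩ <;> simp
  right_inv := by rintro ⟨g, _ | _⟩ <;> simp

def act : F2 →* Equiv.Perm (F3 × Bool) := FreeGroup.lift ![pA, pB]

lemma act_gen (i : Fin 3) (g : F3) :
    act (io (FreeGroup.of i)) (g, false) = (FreeGroup.of i * g, false) := by
  have h1 : pA⁻¹ (g, false) = (g, true) := rfl
  fin_cases i <;> simp [act, io, ga, gb, h1] <;> simp [pA, pB]

lemma act_io (w g : F3) : act (io w) (g, false) = (w * g, false) := by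
  induction w using FreeGroup.induction_on generalizing g with
  | C1 => simp
  | of x => exact act_gen x g
  | inv_of x hx =>
    rw [map_inv, map_inv, Equiv.Perm.inv_eq_iff_eq, hx]; simp
  | mul x y hx hy => rw [map_mul, map_mul, Equiv.Perm.mul_apply, hy, hx, mul_assoc]

lemma io_inj : Function.Injective io := by
  intro w w' h
  have := act_io w 1
  rw [h, act_io] at this
  simpa using this.symm

noncomputable def bH : FreeGroupBasis (Fin 3) io.range :=
  (FreeGroupBasis.ofFreeGroup (Fin 3)).map (MonoidHom.ofInjective io_inj)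

lemma bH0 : ((bH 0 : io.range) : F2) = gb := by
  rw [bH, FreeGroupBasis.map_apply, MonoidHom.ofInjective_apply]
  simp [io]

lemma bH1 : ((bH 1 : io.range) : F2) = ga * gb * ga⁻¹ := by
  rw [bH, FreeGroupBasis.map_apply, MonoidHom.ofInjective_apply]
  simp [io]

lemma descend {K F : Type} [Field K] [Group F] (H : Subgroup F) (u : H)
    (hu : ∀ c : MonoidAlgebra K F, (e K (u : F) - 1) * c = 0 → c = 0)
    (r : MonoidAlgebra K F) (s : MonoidAlgebra K H)
    (h : MonoidAlgebra.mapDomainRingHom K H.subtype s = (e K (u : F) - 1) * r) :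
    ∃ r', MonoidAlgebra.mapDomainRingHom K H.subtype r' = r := by
  classical
  have h1 : (MonoidAlgebra.ofCoeff (r.coeff.filter (· ∉ H)) : MonoidAlgebra K F) = 0 := by
    apply hu
    ext g
    have h2 := congrArg (fun z : MonoidAlgebra K F => z.coeff g) h
    simp only [sub_mul, one_mul, e, MonoidAlgebra.coeff_sub, Finsupp.sub_apply,
      MonoidAlgebra.coeff_single_mul_apply, Finsupp.filter_apply] at h2 ⊢
    have h3 : (u : F)⁻¹ * g ∈ H ↔ g ∈ H := H.mul_mem_cancel_left (H.inv_mem u.2)
    by_cases hg : g ∈ H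
    · simp [hg, h3]
    · simp only [h3, hg, not_false_eq_true, if_true, ← h2]
      simp only [MonoidAlgebra.coeff_zero, Finsupp.zero_apply]
      exact Finsupp.mapDomain_of_notMem_range _ _ (by simpa using hg)
  refine ⟨MonoidAlgebra.comapDomain H.subtype H.subtype_injective r,
    MonoidAlgebra.mapDomain_comapDomain ?_ _⟩
  intro g hg
  by_contra hcon
  have h2 := congrArg (fun z : MonoidAlgebra K F => z.coeff g) h1
  have hg' : g ∉ H := by simpa using hcon
  simp [Finsupp.filter_apply, hg'] at h2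
  exact (Finsupp.mem_support_iff.1 hg) h2

lemma eps_incl {K F : Type} [Field K] [Group F] (H : Subgroup F) (s : MonoidAlgebra K H) :
    eps K F (MonoidAlgebra.mapDomainRingHom K H.subtype s) = eps K H s := by
  induction s using MonoidAlgebra.induction_linear with
  | zero => simp
  | add x y hx hy => rw [map_add, map_add, map_add, hx, hy]
  | single g c => simp

lemma incl_e {K F : Type} [Field K] [Group F] (H : Subgroup F) (u : H) :
    MonoidAlgebra.mapDomainRingHom K H.subtype (e K u) = e K (u : F) := by simp [e]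

lemma inter_MM {K F : Type} [Field K] [Group F] (H : Subgroup F) (k : ℕ) (u v : H)
    (hu : ∀ c : MonoidAlgebra K F, (e K (u : F) - 1) * c = 0 → c = 0) :
    inter H (MM K k (u : F) v) = MM K k u v := by
  have hinj : Function.Injective (MonoidAlgebra.mapDomainRingHom K H.subtype) :=
    MonoidAlgebra.mapDomain_injective H.subtype_injective
  ext x
  constructor
  · rintro ⟨⟨r, h1, h2⟩, h3⟩
    obtain ⟨r', rfl⟩ := descend H u hu r _ h1
    refine ⟨⟨r', hinj ?_, hinj ?_⟩, fun i => ?_⟩
    · rw [map_mul, map_sub, map_one, incl_e]; exact h1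
    · rw [map_mul, map_sub, map_one, incl_e]; exact h2
    · rw [← eps_incl]; exact h3 i
  · rintro ⟨⟨r, h1, h2⟩, h3⟩
    refine ⟨⟨MonoidAlgebra.mapDomainRingHom K H.subtype r, ?_, ?_⟩, fun i => ?_⟩
    · show MonoidAlgebra.mapDomainRingHom K H.subtype (x 0) = _
      rw [h1, map_mul, map_sub, map_one, incl_e]
    · show MonoidAlgebra.mapDomainRingHom K H.subtype (x 1) = _
      rw [h2, map_mul, map_sub, map_one, incl_e]
    · show eps K F (MonoidAlgebra.mapDomainRingHom K H.subtype _) = 0
      rw [eps_incl]; exact h3 i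

lemma algebraic_of {R : Type} [Ring R] {d : ℕ} (M : Submodule Rᵐᵒᵖ (Fin d → R))
    (h : ∀ a : Fin d → R, (∀ x ∈ M, ∑ i, a i * x i = 0) → ∀ i, a i = 0) : Algebraic M := by
  classical
  intro P Q hPQ hM
  have hQ : Q = ⊥ := by
    rw [eq_bot_iff]
    intro q hq
    rw [Submodule.mem_bot]
    funext j
    let φ : (Fin d → R) →ₗ[Rᵐᵒᵖ] R :=
      (LinearMap.proj j).comp (Q.subtype.comp (Q.projectionOnto P hPQ.symm))
    have hφ : ∀ x, φ x = ∑ i, φ (Pi.single i 1) * x i := by
      intro x
      conv_lhs => rw [← Finset.univ_sum_single x]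
      rw [map_sum]
      refine Finset.sum_congr rfl fun i _ => ?_
      have : (Pi.single i (x i) : Fin d → R) = op (x i) • (Pi.single i 1 : Fin d → R) := by
        funext l; by_cases hl : l = i
        · subst hl; simp
        · simp [hl]
      rw [this, map_smul]; simp
    have h0 := h (fun i => φ (Pi.single i 1)) fun x hx => by
      rw [← hφ]
      simp [φ, Submodule.projectionOnto_apply_of_mem_right hPQ.symm (hM hx)]
    have h1 : φ q = 0 := by rw [hφ]; simp [h0]
    have h2 := Submodule.projectionOnto_apply_left hPQ.symm ⟨q, hq⟩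
    simpa [φ, h2] using h1
  have := hPQ.sup_eq_top
  rwa [hQ, sup_bot_eq] at this

lemma alg_MM (K : Type) [Field K] (k : ℕ) : Algebraic (MM K k gb (ga * gb * ga⁻¹)) := by
  classical
  let b := FreeGroupBasis.ofFreeGroup (Fin 2)
  apply algebraic_of
  intro a ha
  have h1 := ha (Fin.cons (e K gb - 1) (Fin.cons (e K (ga * gb * ga⁻¹) - 1) 0))
    ⟨⟨1, by simp, by simp⟩, by simp⟩
  simp only [Fin.sum_univ_succ, Fin.cons_zero, Fin.cons_succ, Pi.zero_apply, mul_zero,
    Finset.sum_const_zero, add_zero] at h1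
  have hinv : e K ga⁻¹ * e K ga = 1 := by rw [← e_mul]; simp
  have hinv' : e K ga * e K ga⁻¹ = 1 := by rw [← e_mul]; simp
  have h2 := indep_left b ![a (Fin.succ 0) * (1 - e K (ga * gb * ga⁻¹)), a 0 + a (Fin.succ 0) * e K ga]
    (by
      simp only [Fin.sum_univ_two, Matrix.cons_val_zero, Matrix.cons_val_one]
      rw [← h1]
      show _ * (e K ga - 1) + _ * (e K gb - 1) = _
      simp only [e_mul]
      have : e K ga * e K gb * e K ga⁻¹ * e K ga = e K ga * e K gb := by
        rw [mul_assoc, hinv, mul_one]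
      simp only [mul_sub, sub_mul, add_mul, mul_one, mul_assoc, hinv, one_mul]
      abel)
  have h3 : a (Fin.succ 0) = 0 := by
    have h4 : a (Fin.succ 0) * (1 - e K (ga * gb * ga⁻¹)) = 0 := h2 0
    have h5 := nzd_left b 1 (a (Fin.succ 0) * e K ga) (by
      show _ * (e K gb - 1) = 0
      have := congrArg (fun z => -(z * e K ga)) h4
      simp only [e_mul, mul_sub, sub_mul, mul_one, mul_assoc, hinv, one_mul, zero_mul, neg_zero,
        neg_sub] at this ⊢
      exact this)
    have := congrArg (· * e K ga⁻¹) h5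
    simpa [mul_assoc, hinv'] using this
  have h4 : a 0 = 0 := by
    have h5 : a 0 + a (Fin.succ 0) * e K ga = 0 := h2 1
    rwa [h3, zero_mul, add_zero] at h5
  intro i
  refine Fin.cases h4 (fun i => Fin.cases h3 (fun i => ?_) i) i
  have h5 := ha (Pi.single i.succ.succ (e K gb - 1)) ⟨⟨0, by simp [Pi.single_apply, (Fin.succ_ne_zero _).symm], by
    rw [mul_zero]
    apply Pi.single_eq_of_ne
    exact (Fin.succ_succ_ne_one i).symm⟩, fun j => by
    simp only [Pi.single_apply]; split_ifs <;> simp⟩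
  simp only [Pi.single_apply, mul_ite, mul_zero, Finset.sum_ite_eq', Finset.mem_univ, if_true] at h5
  exact nzd_left b 1 _ h5

theorem result (K : Type) [Field K] (k : ℕ) :
    ∃ (H : Subgroup (FreeGroup (Fin 2)))
      (M : Submodule (MonoidAlgebra K (FreeGroup (Fin 2)))ᵐᵒᵖ
        (Fin (k + 2) → MonoidAlgebra K (FreeGroup (Fin 2)))) (h m n : ℕ),
      Nonempty (FreeGroupBasis (Fin h) H) ∧ HasRank M m ∧ Algebraic M ∧ HasRank (inter H M) n ∧
      h = 3 ∧ m = 2 * k + 1 ∧ n = 3 * k + 1 ∧
      ((m : ℚ) / ((k + 2 : ℕ) : ℚ) - 1) * ((h : ℚ) - 1) < (n : ℚ) / ((k + 2 : ℕ) : ℚ) - 1 := by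
  refine ⟨io.range, MM K k gb (ga * gb * ga⁻¹), 3, 2 * k + 1, 3 * k + 1, ⟨bH⟩,
    rank_MM (FreeGroupBasis.ofFreeGroup (Fin 2)) k 1 _, alg_MM K k, ?_, rfl, rfl, rfl, ?_⟩
  · rw [← bH1, ← bH0, inter_MM]
    · exact rank_MM bH k 0 _
    · rw [bH0]; exact nzd_right (FreeGroupBasis.ofFreeGroup (Fin 2)) 1
  · have : (0 : ℚ) < (k : ℚ) + 2 := by positivity
    push_cast
    rw [div_sub_one this.ne', div_sub_one this.ne', div_mul_eq_mul_div, div_lt_div_iff_of_pos_right this]
    linarith

end Pool.Agent.Results.MP_6883a6_al.Counter
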